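import Pool.Agent.H17.VS.TargetsA
import Pool.Agent.H17.VG.GG

/-!
# MP_70ba79_ag: row SYV of the board `vs_modules`: the system of a generic family
-/

set_option autoImplicit false

namespace Pool.Agent.H60.VS

open MvPolynomial SC Pool.Agent.H27.LV Pool.Agent.H17.VG Pool.Agent.H17.CI Pool.Agent.H17.VS

section

variable {k K : Type} [Field k] [Field K] [Algebra k K] {n : ℕ} {ι : Type} {e : ι → ℕ}

lemma upT_frmT' (c : (Σ i, Mon (n + 1) (e i)) → k) :
    upT K (frmT c) = frmT fun M => algebraMap k K (c M) := by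
  funext i
  exact up_frm fun M => c ⟨i, M⟩

end

lemma der_sum {R K : Type} [Field R] [Field K] [Algebra R K] {σ : Type} (s : Finset σ)
    (θ : σ → Derivation R K K) (z : K) : (∑ j ∈ s, θ j) z = ∑ j ∈ s, θ j z := by
  classical
  induction s using Finset.induction_on with
  | empty => simp
  | insert a s ha ih =>
    rw [Finset.sum_insert ha, Finset.sum_insert ha, Derivation.add_apply, ih]

theorem pf_SYV (hDX : T_DXV) (hKD : T_KDV) (hCD : T_CD) : T_SYV := by
  classical
  intro R k K _ _ _ _ _ _ _ _ _ _ htr n ι _ e c hc halg D hD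
  obtain ⟨D', hD'⟩ : ∃ D' : Derivation R K K, ∀ z, D' z = D z := by
    refine ⟨Derivation.mk' { toFun := D, map_add' := map_add D, map_smul' := ?_ }
      (fun a b => D.leibniz a b), fun z => rfl⟩
    intro r z
    rw [algebra_compatible_smul k r z, D.map_smul, ← algebra_compatible_smul k r (D z)]
    rfl
  have hcD : ∀ (θ : Derivation R K K) (i : ι), cD θ (upT K (frmT c) i) =
      frm fun M : Mon (n + 1) (e i + 1) => θ (algebraMap k K (c ⟨i, M⟩)) := by
    intro θ i
    rw [upT_frmT']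
    unfold frmT
    rw [cD_frm hCD]
  refine ⟨D', hD', ⟨?_, ?_, ?_, ?_⟩, ?_⟩
  · intro i
    exact (frm_homog fun M => c ⟨i, M⟩).map _
  · intro i
    rw [hcD]
    have h1 : (fun M : Mon (n + 1) (e i + 1) => D' (algebraMap k K (c ⟨i, M⟩))) =
        fun _ => (0 : K) := by
      funext M
      rw [hD', D.map_algebraMap]
    rw [h1]
    unfold frm
    simp
  · intro G hG
    choose θ hθ1 hθ2 using fun M : Σ i, Mon (n + 1) (e i + 1) =>
      hDX R k K (Σ i, Mon (n + 1) (e i + 1)) c hc halg (Pi.single M 1)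
    refine ⟨∑ M : Σ i, Mon (n + 1) (e i + 1), (G M.1).coeff (fs M.2.1) • θ M, fun i => ?_⟩
    rw [hcD]
    have h1 : (fun M : Mon (n + 1) (e i + 1) =>
        (∑ M : Σ i, Mon (n + 1) (e i + 1), (G M.1).coeff (fs M.2.1) • θ M)
          (algebraMap k K (c ⟨i, M⟩))) =
        fun M : Mon (n + 1) (e i + 1) => (G i).coeff (fs M.1) := by
      funext M
      rw [der_sum, Finset.sum_eq_single (⟨i, M⟩ : Σ i, Mon (n + 1) (e i + 1))]
      · rw [Derivation.smul_apply, hθ2, Pi.single_eq_same, map_one, smul_eq_mul, mul_one]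
      · intro M' _ hM'
        rw [Derivation.smul_apply, hθ2, Pi.single_eq_of_ne (Ne.symm hM'), map_zero, smul_zero]
      · intro h
        exact absurd (Finset.mem_univ _) h
    rw [h1]
    exact frm_coeff (hG i)
  · intro θ hθ
    refine hKD R k K htr (Σ i, Mon (n + 1) (e i + 1)) c halg D D' θ hD hD' ?_
    rintro ⟨i, M⟩
    have h1 := hθ i
    rw [hcD] at h1
    exact congrFun (frm_zero h1) M
  · intro G hG
    obtain ⟨θ, hθ1, hθ2⟩ := hDX R k K (Σ i, Mon (n + 1) (e i + 1)) c hc halg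
      (fun M => (G M.1).coeff (fs M.2.1))
    refine ⟨θ, hθ1, fun i => ?_⟩
    rw [hcD]
    have h1 : (fun M : Mon (n + 1) (e i + 1) => θ (algebraMap k K (c ⟨i, M⟩))) =
        fun M : Mon (n + 1) (e i + 1) => algebraMap k K ((G i).coeff (fs M.1)) := by
      funext M
      exact hθ2 ⟨i, M⟩
    rw [h1, ← up_frm, frm_coeff (hG i)]
    rfl

end Pool.Agent.H60.VS
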